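import Mathlib

set_option autoImplicit false

/-!
Geometry of the containing region for the one-firefighter game on the honeycomb
(brick-wall model).  `m` is the parameter; the regions and the schedule are explicit.
-/

namespace HexLoan

/-- adjacency of the brick-wall model of the honeycomb -/
def Adj (u v : ℤ × ℤ) : Prop :=
  (u.2 = v.2 ∧ (u.1 - v.1 = 1 ∨ v.1 - u.1 = 1)) ∨
  (u.1 = v.1 ∧ ((Even (u.1 + u.2) ∧ v.2 = u.2 + 1) ∨ (Even (v.1 + v.2) ∧ u.2 = v.2 + 1)))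

/-- second hexagonal coordinate -/
def Yc (v : ℤ × ℤ) : ℤ := (v.1 - v.2 + 1) / 2
/-- third hexagonal coordinate -/
def Zc (v : ℤ × ℤ) : ℤ := -((v.1 + v.2) / 2)

/-- the region that is allowed to burn -/
def D (m : ℤ) (v : ℤ × ℤ) : Prop :=
  -(10 * m + 7) ≤ v.2 ∧ v.2 ≤ 0 ∧ Yc v ≤ 8 * m + 6 ∧ -m ≤ Zc v ∧ Zc v ≤ 7 * m + 5 ∧
  ((Zc v ≤ m ∧ 0 ≤ Yc v) ∨
   (m + 1 ≤ Zc v ∧ v.2 ≤ -m ∧ ¬ ((v.1 + v.2) % 2 = 1 ∧ Zc v = m + 1 ∧ -(7 * m + 5) < v.2)))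

/-- absolute value by cases (friendly to `omega`) -/
def ab (x : ℤ) : ℤ := if 0 ≤ x then x else -x

/-- lower bound for the burning time -/
def rho (m : ℤ) (v : ℤ × ℤ) : ℤ :=
  if Zc v ≤ m then -v.2 + Yc v + ab (Zc v)
  else 2 * (7 * m + 5) + ab (v.2 + (7 * m + 5)) + ab (Yc v - (7 * m + 5) + m) + (Zc v - m)

theorem rho_lip (m : ℤ) (hm : 0 ≤ m) (u v : ℤ × ℤ) (hu : D m u) (hv : D m v) (h : Adj u v) :
    rho m v ≤ rho m u + 1 := by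
  obtain ⟨x, y⟩ := u
  obtain ⟨x', y'⟩ := v
  unfold Adj at h
  simp only [Int.even_iff] at h
  unfold D at hu hv
  unfold rho ab
  unfold Yc Zc at *
  simp only at *
  rcases h with ⟨h1, h2 | h2⟩ | ⟨h1, ⟨h2, h3⟩ | ⟨h2, h3⟩⟩
  · split_ifs <;> omega
  · split_ifs <;> omega
  · split_ifs <;> omega
  · split_ifs <;> omega

end HexLoan
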