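import Pool.Agent.HexLoan.Game

set_option autoImplicit false

/-! Two explicit finite certificates, checked by kernel computation. -/

namespace HexLoan

/-- round in which the `i`-th protected vertex (counted from 0) is protected when two vertices are
protected in round `n` and none in round `T` -/
def rnd (n T i : ℕ) : ℕ := if i < n then i + 1 else if i < T then i else i + 1

/-- table look-up -/
def get (tbl : List (List ℕ)) (i j : ℕ) : ℕ := (tbl.getD i []).getD j 0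

/-- local check at the entry `(i, j)` against the neighbouring entry `(i', j')` -/
def okNb (tbl : List (List ℕ)) (n T k i' j' : ℕ) : Bool :=
  let e := get tbl i' j'
  (decide (1 ≤ e) && decide (e < 1000) && decide (e ≤ k + 1)) ||
  (decide (1000 ≤ e) && decide (rnd n T (e - 1000) ≤ k))

/-- check of a table; the origin of the lattice is the entry `(yo, xo)` -/
def check (tbl : List (List ℕ)) (lst : List (ℤ × ℤ)) (n T yo xo H W : ℕ) : Bool :=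
  (List.range H).all fun i => (List.range W).all fun j =>
    let k := get tbl i j
    (decide (k = 0)) ||
    (decide (1000 ≤ k) && decide (lst.getD (k - 1000) (0, 0) = ((j : ℤ) - xo, (i : ℤ) - yo))
      && decide (k - 1000 < lst.length)) ||
    (decide (k < 1000) && decide (1 ≤ i) && decide (1 ≤ j) && decide (i + 1 < H) && decide (j + 1 < W) &&
      okNb tbl n T k i (j + 1) && okNb tbl n T k i (j - 1) &&
      (if (i + yo + j + xo) % 2 = 0 then okNb tbl n T k (i + 1) j else okNb tbl n T k (i - 1) j))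

/-- table of certificate `c1`: row `y = -10 + i`, column `x = -19 + j`; entry `k` with `1 ≤ k < 1000` means
may burn, not before round `k - 1`; entry `1000 + i` is the `i`-th protected vertex. -/
def c1_tbl : List (List ℕ) := [
  [0, 0, 0, 0, 0, 0, 0, 1021, 0, 1020, 0, 1018, 0, 1019],
  [0, 0, 0, 0, 0, 1022, 25, 24, 23, 22, 21, 20, 19, 20, 19, 1017],
  [0, 0, 0, 0, 1023, 25, 24, 23, 22, 21, 20, 19, 18, 17, 18, 17, 1016],
  [0, 0, 0, 1024, 25, 24, 23, 22, 21, 20, 19, 18, 17, 16, 15, 16, 15, 1014],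
  [0, 0, 1025, 27, 26, 25, 24, 23, 22, 21, 20, 1015, 16, 15, 14, 13, 14, 13, 1012],
  [0, 1026, 29, 28, 27, 26, 25, 24, 23, 22, 23, 24, 1013, 14, 13, 12, 11, 12, 11, 1010],
  [1027, 31, 30, 29, 28, 27, 26, 25, 24, 25, 24, 25, 26, 1011, 12, 11, 10, 9, 10, 9, 1008],
  [1028, 32, 31, 30, 29, 28, 27, 26, 27, 26, 27, 26, 27, 28, 1009, 10, 9, 8, 7, 8, 7, 1006],
  [0, 1029, 32, 31, 30, 29, 28, 29, 28, 29, 28, 29, 28, 29, 30, 1007, 8, 7, 6, 5, 6, 5, 1004],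
  [0, 0, 1030, 32, 31, 30, 31, 30, 31, 30, 31, 30, 31, 30, 31, 32, 1005, 6, 5, 4, 3, 4, 1003],
  [0, 0, 0, 1031, 32, 33, 32, 33, 32, 33, 32, 33, 32, 33, 32, 33, 1032, 37, 1000, 1, 2, 1002],
  [0, 0, 0, 0, 1033, 34, 35, 34, 35, 34, 35, 34, 35, 34, 35, 34, 35, 36, 37, 1001],
  [0, 0, 0, 0, 0, 1034, 36, 37, 36, 37, 36, 37, 36, 37, 36, 37, 36, 37, 38, 1035],
  [0, 0, 0, 0, 0, 0, 1036, 38, 39, 38, 39, 38, 39, 38, 39, 38, 39, 38, 1037],
  [0, 0, 0, 0, 0, 0, 0, 1038, 40, 41, 40, 41, 40, 41, 40, 41, 40, 1039],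
  [0, 0, 0, 0, 0, 0, 0, 0, 1040, 42, 43, 42, 43, 42, 43, 42, 1041],
  [0, 0, 0, 0, 0, 0, 0, 0, 0, 1042, 44, 45, 44, 45, 44, 1043],
  [0, 0, 0, 0, 0, 0, 0, 0, 0, 0, 1044, 46, 47, 46, 1045],
  [0, 0, 0, 0, 0, 0, 0, 0, 0, 0, 0, 1046, 48, 1047]]

/-- protected vertices of certificate `c1`, in the order in which they are protected -/
def c1_lst : List (ℤ × ℤ) := [
  (-1, 0), (0, 1), (2, 0), (3, -1), (3, -2), (-3, -1), (2, -3), (-4, -2), (1, -4), (-5, -3),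
  (0, -5), (-6, -4), (-1, -6), (-7, -5), (-2, -7), (-8, -6), (-3, -8), (-4, -9), (-8, -10), (-6, -10),
  (-10, -10), (-12, -10), (-14, -9), (-15, -8), (-16, -7), (-17, -6), (-18, -5), (-19, -4), (-19, -3), (-18, -2),
  (-17, -1), (-16, 0), (-3, 0), (-15, 1), (-14, 2), (0, 2), (-13, 3), (-1, 3), (-12, 4), (-2, 4),
  (-11, 5), (-3, 5), (-10, 6), (-4, 6), (-9, 7), (-5, 7), (-8, 8), (-6, 8)]

/-- table of certificate `c2`: row `y = -1 + i`, column `x = -13 + j`; entry `k` with `1 ≤ k < 1000` means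
may burn, not before round `k - 1`; entry `1000 + i` is the `i`-th protected vertex. -/
def c2_tbl : List (List ℕ) := [
  [0, 0, 0, 0, 0, 0, 0, 0, 0, 0, 0, 0, 0, 0, 1001, 0, 0, 0, 1007, 0, 1009, 0, 1011, 0, 1013, 0, 1015, 0, 1017, 0, 1019, 0, 1021, 0, 1023, 0, 1024],
  [0, 0, 0, 0, 0, 0, 0, 0, 0, 0, 0, 0, 1000, 1, 2, 3, 1003, 7, 8, 9, 10, 11, 12, 13, 14, 15, 16, 17, 18, 19, 20, 21, 22, 23, 24, 25, 26, 27, 1025],
  [0, 0, 0, 0, 0, 0, 0, 0, 0, 0, 0, 0, 1002, 2, 3, 4, 5, 6, 7, 8, 9, 10, 11, 12, 13, 14, 15, 16, 17, 18, 19, 20, 21, 22, 23, 24, 25, 26, 27, 1026],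
  [0, 0, 0, 0, 0, 0, 0, 0, 0, 0, 0, 0, 0, 1004, 4, 5, 6, 7, 8, 9, 10, 11, 12, 13, 14, 15, 16, 17, 18, 19, 20, 21, 22, 23, 24, 25, 26, 27, 28, 29, 1027],
  [0, 0, 0, 0, 0, 0, 0, 0, 0, 0, 0, 0, 0, 0, 1005, 6, 7, 8, 9, 10, 11, 12, 13, 14, 15, 16, 17, 18, 19, 20, 21, 22, 23, 24, 25, 26, 27, 28, 29, 30, 31, 1028],
  [0, 0, 0, 0, 0, 0, 0, 0, 1050, 53, 1048, 51, 1046, 49, 1044, 47, 1006, 45, 1008, 43, 1010, 41, 1012, 39, 1014, 37, 1016, 35, 1018, 33, 1020, 31, 1022, 27, 26, 27, 28, 29, 30, 31, 32, 33, 1029],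
  [0, 0, 0, 0, 0, 0, 0, 1051, 53, 52, 51, 50, 49, 48, 47, 46, 45, 44, 43, 42, 41, 40, 39, 38, 37, 36, 35, 34, 33, 32, 31, 30, 29, 28, 29, 28, 29, 30, 31, 32, 33, 34, 1030],
  [0, 0, 0, 0, 0, 0, 1053, 55, 54, 53, 52, 51, 50, 49, 48, 47, 46, 45, 44, 43, 42, 41, 40, 39, 38, 37, 36, 35, 34, 33, 32, 31, 30, 31, 30, 31, 30, 31, 32, 33, 34, 1031],
  [0, 0, 0, 0, 0, 1055, 57, 56, 55, 54, 53, 52, 51, 50, 49, 48, 47, 46, 45, 44, 43, 42, 41, 40, 39, 38, 37, 36, 35, 34, 33, 32, 33, 32, 33, 32, 33, 32, 33, 34, 1032],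
  [0, 0, 0, 0, 1057, 59, 58, 57, 56, 55, 54, 53, 52, 51, 50, 49, 48, 47, 46, 45, 44, 43, 42, 41, 40, 39, 38, 37, 36, 35, 34, 35, 34, 35, 34, 35, 34, 35, 34, 1033],
  [0, 0, 0, 1059, 61, 60, 59, 58, 57, 56, 55, 54, 53, 52, 51, 50, 49, 48, 47, 46, 45, 44, 43, 42, 41, 40, 39, 38, 37, 36, 37, 36, 37, 36, 37, 36, 37, 36, 1034],
  [0, 0, 1061, 63, 62, 61, 60, 59, 58, 57, 56, 55, 54, 53, 52, 51, 50, 49, 48, 47, 46, 45, 44, 43, 42, 41, 40, 39, 38, 39, 38, 39, 38, 39, 38, 39, 38, 1035],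
  [0, 1063, 65, 64, 63, 62, 61, 60, 59, 58, 57, 56, 55, 54, 53, 52, 51, 50, 49, 48, 47, 46, 45, 44, 43, 42, 41, 40, 41, 40, 41, 40, 41, 40, 41, 40, 1036],
  [1065, 67, 66, 65, 64, 63, 62, 61, 60, 59, 58, 57, 56, 55, 54, 53, 52, 51, 50, 49, 48, 47, 46, 45, 44, 43, 42, 43, 42, 43, 42, 43, 42, 43, 42, 1037],
  [0, 1066, 0, 1064, 0, 1062, 0, 1060, 0, 1058, 0, 1056, 0, 1054, 0, 1052, 0, 1049, 0, 1047, 0, 1045, 0, 1043, 0, 1038, 0, 1039, 0, 1040, 0, 1041, 0, 1042]]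

/-- protected vertices of certificate `c2`, in the order in which they are protected -/
def c2_lst : List (ℤ × ℤ) := [
  (-1, 0), (1, -1), (-1, 1), (3, 0), (0, 2), (1, 3), (3, 4), (5, -1), (5, 4), (7, -1),
  (7, 4), (9, -1), (9, 4), (11, -1), (11, 4), (13, -1), (13, 4), (15, -1), (15, 4), (17, -1),
  (17, 4), (19, -1), (19, 4), (21, -1), (23, -1), (25, 0), (26, 1), (27, 2), (28, 3), (29, 4),
  (29, 5), (28, 6), (27, 7), (26, 8), (25, 9), (24, 10), (23, 11), (22, 12), (12, 13), (14, 13),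
  (16, 13), (18, 13), (20, 13), (10, 13), (1, 4), (8, 13), (-1, 4), (6, 13), (-3, 4), (4, 13),
  (-5, 4), (-6, 5), (2, 13), (-7, 6), (0, 13), (-8, 7), (-2, 13), (-9, 8), (-4, 13), (-10, 9),
  (-6, 13), (-11, 10), (-8, 13), (-12, 11), (-10, 13), (-13, 12), (-12, 13)]

-- c1: n=1 T=3 x0=-19 y0=-10 H=19 W=23 ntok=48
theorem c1_check : check c1_tbl c1_lst 1 3 10 19 20 24 = true := by
  decide +kernel

-- c2: n=2 T=5 x0=-13 y0=-1 H=15 W=43 ntok=67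
theorem c2_check : check c2_tbl c2_lst 2 5 1 13 16 44 = true := by
  decide +kernel

end HexLoan
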