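import Pool.Agent.HexLoan.Seq

set_option autoImplicit false

namespace HexLoan

theorem cert_of_check (tbl : List (List ℕ)) (lst : List (ℤ × ℤ)) (n T yo xo H W : ℕ)
    (hyo : yo < H) (hxo : xo < W) (hW : W ≤ 1000)
    (h0 : get tbl yo xo = 1)
    (hc : check tbl lst n T yo xo H W = true) (hl : lstOk tbl lst yo xo = true) :
    Cert n T := by
  refine ⟨tok lst, CD tbl yo xo H W, crho tbl yo xo, CD_finite tbl yo xo H W,
    ⟨yo, hyo, xo, hxo, by simp, by omega, by omega⟩, ?_, tok_not_CD tbl lst yo xo H W hW hl, ?_⟩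
  · unfold crho
    simp [h0]
  · rintro u ⟨i, hi, j, hj, rfl, h1, h2⟩ v huv
    unfold check at hc
    rw [List.all_eq_true] at hc
    have hc1 := hc i (List.mem_range.2 hi)
    rw [List.all_eq_true] at hc1
    have hc2 := hc1 j (List.mem_range.2 hj)
    simp only [Bool.or_eq_true, Bool.and_eq_true, decide_eq_true_eq] at hc2
    rcases hc2 with (h3 | ⟨⟨h3, -⟩, -⟩) | ⟨⟨⟨⟨⟨⟨⟨-, h3⟩, h4⟩, h5⟩, h6⟩, h7⟩, h8⟩, h9⟩
    · omega
    · omega
    · have key : ∀ i' j' : ℕ, i' < H → j' < W → okNb tbl n T (get tbl i j) i' j' = true →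
          v = ((j' : ℤ) - xo, (i' : ℤ) - yo) →
          (v ∈ CD tbl yo xo H W ∧ crho tbl yo xo v ≤ crho tbl yo xo ((j : ℤ) - xo, (i : ℤ) - yo) + 1) ∨
          ∃ t : ℕ, (rnd n T t : ℤ) ≤ crho tbl yo xo ((j : ℤ) - xo, (i : ℤ) - yo) + 1 ∧
            v = tok lst t := by
        intro i' j' hi' hj' hok hv
        unfold okNb at hok
        simp only [Bool.or_eq_true, Bool.and_eq_true, decide_eq_true_eq] at hok
        rcases hok with ⟨⟨h10, h11⟩, h12⟩ | ⟨h10, h11⟩
        · left
          refine ⟨⟨i', hi', j', hj', hv, h10, h11⟩, ?_⟩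
          rw [hv, crho_at, crho_at]
          omega
        · right
          -- look up the token
          have hc3 := hc i' (List.mem_range.2 hi')
          rw [List.all_eq_true] at hc3
          have hc4 := hc3 j' (List.mem_range.2 hj')
          simp only [Bool.or_eq_true, Bool.and_eq_true, decide_eq_true_eq] at hc4
          have hlk : lst.getD (get tbl i' j' - 1000) (0, 0) = ((j' : ℤ) - xo, (i' : ℤ) - yo) ∧
              get tbl i' j' - 1000 < lst.length := by
            rcases hc4 with (h12 | ⟨⟨-, h12⟩, h13⟩) | ⟨⟨⟨⟨⟨⟨⟨h12, -⟩, -⟩, -⟩, -⟩, -⟩, -⟩, -⟩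
            · omega
            · exact ⟨h12, h13⟩
            · omega
          refine ⟨get tbl i' j' - 1000, ?_, ?_⟩
          · rw [crho_at]
            omega
          · obtain ⟨h15, h16⟩ := hlk
            rw [hv, ← h15]
            unfold tok
            rw [List.getD_eq_getElem _ _ h16, List.getD_eq_getElem _ _ h16]
      obtain ⟨x, y⟩ := v
      unfold Adj at huv
      simp only [Int.even_iff] at huv
      rcases huv with ⟨g1, g2 | g2⟩ | ⟨g1, ⟨g2, g3⟩ | ⟨g2, g3⟩⟩
      · apply key i (j - 1) hi (by omega) h8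
        rw [Prod.ext_iff]
        simp only
        push_cast [Nat.cast_sub h4]
        constructor <;> omega
      · apply key i (j + 1) hi (by omega) h7
        rw [Prod.ext_iff]
        simp only
        push_cast
        constructor <;> omega
      · have h10 : (i + yo + j + xo) % 2 = 0 := by omega
        rw [if_pos h10] at h9
        apply key (i + 1) j (by omega) hj h9
        rw [Prod.ext_iff]
        simp only
        push_cast
        constructor <;> omega
      · have h10 : ¬ (i + yo + j + xo) % 2 = 0 := by omega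
        rw [if_neg h10] at h9
        apply key (i - 1) j (by omega) hj h9
        rw [Prod.ext_iff]
        simp only
        push_cast [Nat.cast_sub h3]
        constructor <;> omega

theorem cert_one_three : Cert 1 3 :=
  cert_of_check c1_tbl c1_lst 1 3 10 19 20 24 (by norm_num) (by norm_num)
    (by norm_num) (by decide +kernel) c1_check c1_lstOk

theorem cert_two_five : Cert 2 5 :=
  cert_of_check c2_tbl c2_lst 2 5 1 13 16 44 (by norm_num) (by norm_num)
    (by norm_num) (by decide +kernel) c2_check c2_lstOk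

end HexLoan
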