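import Pool.Agent.HexLoan.Basic

set_option autoImplicit false

namespace HexLoan

/-- the extra vertex -/
def ex (m : ℤ) : ℤ × ℤ := (-m - 1, -m)

/-- the vertex protected in round `r` (the value at `14 * m + 11` is not used) -/
def f (m r : ℤ) : ℤ × ℤ :=
  if r % 2 = 1 then
    if r ≤ 2 * m + 1 then (r - 1, 1)
    else if r ≤ 14 * m + 11 then ((r - 1) / 2 - 2 * m - 1, -((r - 1) / 2))
    else if r ≤ 20 * m + 15 then
      (8 * m + 7 - (-m + (r - 14 * m - 13) / 2), -(8 * m + 6) - (-m + (r - 14 * m - 13) / 2))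
    else if r ≤ 38 * m + 31 then
      (-2 * (7 * m + 5) - 1 - (-(10 * m + 7) + (r - 20 * m - 17) / 2),
        -(10 * m + 7) + (r - 20 * m - 17) / 2)
    else (0, 1)
  else
    if r ≤ 2 * m then (-2 - (r - 2) / 2, -((r - 2) / 2))
    else if r ≤ 16 * m + 12 then (r / 2 + m + 1, m + 1 - r / 2)
    else if r ≤ 26 * m + 20 then
      (2 * (8 * m + 6 - (r - 16 * m - 14) / 2) - 1 - (10 * m + 7), -(10 * m + 7) - 1)
    else if r ≤ 38 * m + 30 then (m - 2 * (m + 1 + (r - 26 * m - 22) / 2), 1 - m)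
    else (0, 1)

theorem f_not_D (m : ℤ) (hm : 0 ≤ m) (r : ℤ) (hr : 1 ≤ r) (hT : r ≠ 14 * m + 11) :
    ¬ D m (f m r) := by
  unfold f
  split_ifs <;> unfold D Yc Zc <;> simp only <;> omega

theorem ex_not_D (m : ℤ) (hm : 0 ≤ m) : ¬ D m (ex m) := by
  unfold ex D Yc Zc
  simp only
  omega

theorem cover (m : ℤ) (hm : 0 ≤ m) (u v : ℤ × ℤ) (hu : D m u) (hv : ¬ D m v) (h : Adj u v) :
    (v = ex m ∧ 2 * m ≤ rho m u) ∨
    ∃ r : ℤ, 1 ≤ r ∧ r ≤ rho m u + 1 ∧ r ≠ 14 * m + 11 ∧ v = f m r := by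
  obtain ⟨x, y⟩ := u
  obtain ⟨x', y'⟩ := v
  unfold Adj at h
  simp only [Int.even_iff] at h
  unfold D at hu hv
  unfold rho ab
  unfold Yc Zc at *
  simp only at *
  have key : ∀ (a b : ℤ) (r : ℤ), f m r = (a, b) → x' = a → y' = b →
      ((x', y') : ℤ × ℤ) = f m r := by
    intro a b r h1 h2 h3
    rw [h1, h2, h3]
  by_cases c1 : 1 ≤ y' ∧ 0 ≤ x'
  · right
    refine ⟨x' + 1, ?_, ?_, ?_, ?_⟩
    · omega
    · split_ifs <;> omega
    · omega
    · refine key (x' + 1 - 1) 1 _ ?_ (by omega) (by omega)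
      unfold f
      rw [if_pos (by omega), if_pos (by omega)]
  by_cases c2 : -((x' + y') / 2) < -m
  · right
    refine ⟨2 * ((x' - y' + 1) / 2), ?_, ?_, ?_, ?_⟩
    · omega
    · split_ifs <;> omega
    · omega
    · refine key (2 * ((x' - y' + 1) / 2) / 2 + m + 1) (m + 1 - 2 * ((x' - y' + 1) / 2) / 2) _ ?_
        (by omega) (by omega)
      unfold f
      rw [if_neg (by omega), if_neg (by omega), if_pos (by omega)]
  by_cases c3 : 8 * m + 6 < (x' - y' + 1) / 2
  · right
    refine ⟨14 * m + 13 + 2 * (-((x' + y') / 2) + m), ?_, ?_, ?_, ?_⟩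
    · omega
    · split_ifs <;> omega
    · omega
    · refine key (8 * m + 7 - (-m + (14 * m + 13 + 2 * (-((x' + y') / 2) + m) - 14 * m - 13) / 2))
        (-(8 * m + 6) - (-m + (14 * m + 13 + 2 * (-((x' + y') / 2) + m) - 14 * m - 13) / 2)) _ ?_
        (by omega) (by omega)
      unfold f
      rw [if_pos (by omega), if_neg (by omega), if_neg (by omega), if_pos (by omega)]
  by_cases c4 : y' < -(10 * m + 7)
  · right
    refine ⟨16 * m + 14 + 2 * (8 * m + 6 - (x' - y' + 1) / 2), ?_, ?_, ?_, ?_⟩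
    · omega
    · split_ifs <;> omega
    · omega
    · refine key (2 * (8 * m + 6 - (16 * m + 14 + 2 * (8 * m + 6 - (x' - y' + 1) / 2)
        - 16 * m - 14) / 2) - 1 - (10 * m + 7)) (-(10 * m + 7) - 1) _ ?_
        (by omega) (by omega)
      unfold f
      rw [if_neg (by omega), if_neg (by omega), if_neg (by omega), if_pos (by omega)]
  by_cases c5 : 7 * m + 5 < -((x' + y') / 2)
  · right
    refine ⟨20 * m + 17 + 2 * (y' + (10 * m + 7)), ?_, ?_, ?_, ?_⟩
    · omega
    · split_ifs <;> omega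
    · omega
    · refine key (-2 * (7 * m + 5) - 1 - (-(10 * m + 7) +
        (20 * m + 17 + 2 * (y' + (10 * m + 7)) - 20 * m - 17) / 2))
        (-(10 * m + 7) + (20 * m + 17 + 2 * (y' + (10 * m + 7)) - 20 * m - 17) / 2) _ ?_
        (by omega) (by omega)
      unfold f
      rw [if_pos (by omega), if_neg (by omega), if_neg (by omega), if_neg (by omega),
        if_pos (by omega)]
  by_cases c6 : -((x' + y') / 2) ≤ m
  · right
    refine ⟨-2 * y' + 2, ?_, ?_, ?_, ?_⟩
    · omega
    · split_ifs <;> omega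
    · omega
    · refine key (-2 - (-2 * y' + 2 - 2) / 2) (-((-2 * y' + 2 - 2) / 2)) _ ?_
        (by omega) (by omega)
      unfold f
      rw [if_neg (by omega), if_pos (by omega)]
  by_cases c7 : -m < y'
  · right
    refine ⟨26 * m + 22 + 2 * (-((x' + y') / 2) - m - 1), ?_, ?_, ?_, ?_⟩
    · omega
    · split_ifs <;> omega
    · omega
    · refine key (m - 2 * (m + 1 + (26 * m + 22 + 2 * (-((x' + y') / 2) - m - 1)
        - 26 * m - 22) / 2)) (1 - m) _ ?_ (by omega) (by omega)
      unfold f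
      rw [if_neg (by omega), if_neg (by omega), if_neg (by omega), if_neg (by omega),
        if_pos (by omega)]
  · by_cases c8 : y' = -m
    · left
      refine ⟨?_, ?_⟩
      · unfold ex
        ext
        · show x' = -m - 1
          omega
        · show y' = -m
          omega
      · split_ifs <;> omega
    · right
      refine ⟨-2 * y' + 1, ?_, ?_, ?_, ?_⟩
      · omega
      · split_ifs <;> omega
      · omega
      · refine key ((-2 * y' + 1 - 1) / 2 - 2 * m - 1) (-((-2 * y' + 1 - 1) / 2)) _ ?_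
          (by omega) (by omega)
        unfold f
        rw [if_pos (by omega), if_neg (by omega), if_pos (by omega)]

end HexLoan
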