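import Pool.Agent.HexLoan.Basic

set_option autoImplicit false

namespace HexLoan

/-- `Contain n T`: the fire started at `(0,0)` is contained by a strategy that protects exactly one
vertex in every round, except that it protects two vertices in round `n` and none in round `T`.
`A t` is the set protected in round `t`, `P t` the set protected in the first `t` rounds, `B t` the
set burning after `t` rounds.  In round `t+1` the vertices of `A (t+1)` (not burning) are protected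
first, then the fire spreads to all unprotected neighbours of burning vertices. -/
def Contain (n T : ℕ) : Prop :=
  ∃ (A : ℕ → Finset (ℤ × ℤ)) (B P : ℕ → Set (ℤ × ℤ)),
    (∀ t : ℕ, 1 ≤ t → (A t).card = if t = n then 2 else if t = T then 0 else 1) ∧
    B 0 = {((0 : ℤ), (0 : ℤ))} ∧ P 0 = ∅ ∧
    (∀ t : ℕ, (∀ v ∈ A (t + 1), v ∉ B t) ∧ P (t + 1) = P t ∪ (A (t + 1) : Set (ℤ × ℤ)) ∧
      B (t + 1) = B t ∪ {v : ℤ × ℤ | v ∉ P (t + 1) ∧ ∃ u ∈ B t,
        ((u.2 = v.2 ∧ (u.1 - v.1 = 1 ∨ v.1 - u.1 = 1)) ∨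
         (u.1 = v.1 ∧ ((Even (u.1 + u.2) ∧ v.2 = u.2 + 1) ∨
                       (Even (v.1 + v.2) ∧ u.2 = v.2 + 1))))}) ∧
    (⋃ t, B t).Finite

/-- protected sets -/
def Pseq (A : ℕ → Finset (ℤ × ℤ)) : ℕ → Set (ℤ × ℤ)
  | 0 => ∅
  | t + 1 => Pseq A t ∪ (A (t + 1) : Set (ℤ × ℤ))

/-- burning sets -/
def Bseq (A : ℕ → Finset (ℤ × ℤ)) : ℕ → Set (ℤ × ℤ)
  | 0 => {((0 : ℤ), (0 : ℤ))}
  | t + 1 => Bseq A t ∪ {v : ℤ × ℤ | v ∉ Pseq A (t + 1) ∧ ∃ u ∈ Bseq A t, Adj u v}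

theorem mem_Pseq (A : ℕ → Finset (ℤ × ℤ)) (s : ℕ) (v : ℤ × ℤ) (hs : 1 ≤ s) (hv : v ∈ A s) :
    ∀ t, s ≤ t → v ∈ Pseq A t := by
  intro t
  induction t with
  | zero => intro h; omega
  | succ t ih =>
    intro h
    rcases Nat.lt_or_ge t s with h1 | h1
    · have : s = t + 1 := by omega
      subst this
      exact Or.inr hv
    · exact Or.inl (ih h1)

theorem contain_of (n T : ℕ) (A : ℕ → Finset (ℤ × ℤ)) (D : Set (ℤ × ℤ)) (ρ : ℤ × ℤ → ℤ)
    (hcard : ∀ t : ℕ, 1 ≤ t → (A t).card = if t = n then 2 else if t = T then 0 else 1)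
    (hfin : D.Finite) (h0 : ((0 : ℤ), (0 : ℤ)) ∈ D) (hρ0 : ρ ((0 : ℤ), (0 : ℤ)) ≤ 0)
    (hA : ∀ t : ℕ, 1 ≤ t → ∀ v ∈ A t, v ∉ D)
    (step : ∀ u ∈ D, ∀ v, Adj u v → (v ∈ D ∧ ρ v ≤ ρ u + 1) ∨
      ∃ t : ℕ, 1 ≤ t ∧ (t : ℤ) ≤ ρ u + 1 ∧ v ∈ A t) : Contain n T := by
  have key : ∀ t, ∀ v ∈ Bseq A t, v ∈ D ∧ ρ v ≤ t := by
    intro t
    induction t with
    | zero =>
      intro v hv
      have : v = ((0 : ℤ), (0 : ℤ)) := hv
      subst this
      exact ⟨h0, by simpa using hρ0⟩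
    | succ t ih =>
      intro v hv
      rcases hv with hv | ⟨hvP, u, hu, huv⟩
      · obtain ⟨h1, h2⟩ := ih v hv
        refine ⟨h1, ?_⟩
        push_cast
        linarith
      · obtain ⟨h1, h2⟩ := ih u hu
        rcases step u h1 v huv with ⟨h3, h4⟩ | ⟨s, hs1, hs2, hs3⟩
        · refine ⟨h3, ?_⟩
          push_cast
          linarith
        · exfalso
          apply hvP
          apply mem_Pseq A s v hs1 hs3
          have : (s : ℤ) ≤ t + 1 := by linarith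
          exact_mod_cast this
  refine ⟨A, Bseq A, Pseq A, hcard, rfl, rfl, ?_, ?_⟩
  · intro t
    refine ⟨?_, rfl, rfl⟩
    intro v hv hB
    exact hA (t + 1) (by omega) v hv (key t v hB).1
  · apply hfin.subset
    intro v hv
    obtain ⟨t, ht⟩ := Set.mem_iUnion.1 hv
    exact (key t v ht).1

end HexLoan
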