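import Pool.Agent.HexLoan.Game
import Pool.Agent.HexLoan.Cover

set_option autoImplicit false

namespace HexLoan

/-- schedule: one vertex per round, `f` and additionally `ex` in round `n`, nothing in round
`14 m + 11` -/
def sched (m n : ℕ) (t : ℕ) : Finset (ℤ × ℤ) :=
  if t = n then {f m t, ex m}
  else if t = 14 * m + 11 then ∅
  else {f m t}

theorem D_finite (m : ℤ) : {v : ℤ × ℤ | D m v}.Finite := by
  apply Set.Finite.subset (s := Set.Icc (-(100 * |m| + 100)) (100 * |m| + 100) ×ˢ
    Set.Icc (-(100 * |m| + 100)) (100 * |m| + 100))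
  · exact (Set.finite_Icc _ _).prod (Set.finite_Icc _ _)
  · rintro ⟨x, y⟩ h
    have h1 : m ≤ |m| := le_abs_self m
    have h2 : -m ≤ |m| := neg_le_abs m
    have h3 : 0 ≤ |m| := abs_nonneg m
    generalize |m| = k at *
    simp only [Set.mem_setOf_eq, D, Yc, Zc] at h
    simp only [Set.mem_prod, Set.mem_Icc]
    omega

theorem general (n : ℕ) (hn : 1 ≤ n) : Contain n (14 * (n / 2) + 11) := by
  obtain ⟨m, hm⟩ : ∃ m : ℕ, m = n / 2 := ⟨_, rfl⟩
  rw [← hm]
  have hm' : n = 2 * m ∨ n = 2 * m + 1 := by omega
  have hnT : n ≠ 14 * m + 11 := by omega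
  have hm0 : (0 : ℤ) ≤ (m : ℤ) := by positivity
  apply contain_of n (14 * m + 11) (sched m n) {v | D m v} (rho m)
  · intro t ht
    unfold sched
    by_cases h1 : t = n
    · simp only [h1, if_true]
      rw [Finset.card_pair]
      unfold f ex
      intro h
      rw [Prod.ext_iff] at h
      obtain ⟨h2, h3⟩ := h
      split_ifs at h2 h3 <;> simp only at h2 h3 <;> omega
    · by_cases h2 : t = 14 * m + 11
      · simp [h1, h2, hnT.symm]
      · simp [h1, h2]
  · exact D_finite m
  · show D m (0, 0)
    unfold D Yc Zc
    simp only
    omega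
  · show rho m (0, 0) ≤ 0
    unfold rho Yc Zc ab
    simp only
    split_ifs <;> omega
  · intro t ht v hv
    unfold sched at hv
    show ¬ D m v
    by_cases h1 : t = n
    · simp only [h1, if_true, Finset.mem_insert, Finset.mem_singleton] at hv
      rcases hv with rfl | rfl
      · apply f_not_D m hm0 n (by exact_mod_cast hn)
        intro h
        apply hnT
        exact_mod_cast h
      · exact ex_not_D m hm0
    · by_cases h2 : t = 14 * m + 11
      · simp [h2, hnT.symm] at hv
      · simp only [h1, h2, if_false, Finset.mem_singleton] at hv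
        subst hv
        apply f_not_D m hm0 t (by exact_mod_cast ht)
        intro h
        apply h2
        exact_mod_cast h
  · intro u hu v huv
    by_cases hv : D m v
    · left
      exact ⟨hv, rho_lip m hm0 u v hu hv huv⟩
    · right
      rcases cover m hm0 u v hu hv huv with ⟨rfl, h1⟩ | ⟨r, h1, h2, h3, h4⟩
      · refine ⟨n, hn, ?_, ?_⟩
        · omega
        · unfold sched
          simp
      · obtain ⟨t, rfl⟩ : ∃ t : ℕ, r = t := ⟨r.toNat, by omega⟩
        refine ⟨t, by exact_mod_cast h1, h2, ?_⟩
        unfold sched
        by_cases h5 : t = n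
        · simp only [h5, if_true, Finset.mem_insert]
          left
          rw [h4, h5]
        · have h6 : t ≠ 14 * m + 11 := by
            intro h
            apply h3
            rw [h]
            push_cast
            ring
          simp only [h5, h6, if_false, Finset.mem_singleton]
          exact h4

end HexLoan
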