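import Pool.Agent.HexLoan.Transfer
import Pool.Agent.HexLoan.General

set_option autoImplicit false

/-! Containment with an arbitrary supply sequence. -/

namespace HexLoan

/-- `Contained a`: the fire started at `(0,0)` on the honeycomb lattice (brick-wall model on `ℤ²`) can
be contained by a team that may protect at most `a t` vertices in round `t`.  `A t` is the set
protected in round `t ≥ 1`, `P t` the set protected in the first `t` rounds, `B t` the set burning
after `t` rounds.  In round `t + 1` the vertices of `A (t + 1)` (not burning) are protected first, and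
then the fire spreads to all unprotected neighbours of burning vertices. -/
def Contained (a : ℕ → ℕ) : Prop :=
  ∃ (A : ℕ → Finset (ℤ × ℤ)) (B P : ℕ → Set (ℤ × ℤ)),
    (∀ t : ℕ, 1 ≤ t → (A t).card ≤ a t) ∧
    B 0 = {((0 : ℤ), (0 : ℤ))} ∧ P 0 = ∅ ∧
    (∀ t : ℕ, (∀ v ∈ A (t + 1), v ∉ B t) ∧ P (t + 1) = P t ∪ (A (t + 1) : Set (ℤ × ℤ)) ∧
      B (t + 1) = B t ∪ {v : ℤ × ℤ | v ∉ P (t + 1) ∧ ∃ u ∈ B t,
        ((u.2 = v.2 ∧ (u.1 - v.1 = 1 ∨ v.1 - u.1 = 1)) ∨
         (u.1 = v.1 ∧ ((Even (u.1 + u.2) ∧ v.2 = u.2 + 1) ∨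
                       (Even (v.1 + v.2) ∧ u.2 = v.2 + 1))))}) ∧
    (⋃ t, B t).Finite

/-- a static certificate: a list `g` of vertices, the `i`-th of which (from `0`) is needed in round
`rnd n T i` at the latest, a finite region and a lower bound for the burning times -/
def Cert (n T : ℕ) : Prop :=
  ∃ (g : ℕ → ℤ × ℤ) (D : Set (ℤ × ℤ)) (ρ : ℤ × ℤ → ℤ),
    D.Finite ∧ ((0 : ℤ), (0 : ℤ)) ∈ D ∧ ρ ((0 : ℤ), (0 : ℤ)) ≤ 0 ∧ (∀ i, g i ∉ D) ∧
    (∀ u ∈ D, ∀ v, Adj u v → (v ∈ D ∧ ρ v ≤ ρ u + 1) ∨
      ∃ i : ℕ, (rnd n T i : ℤ) ≤ ρ u + 1 ∧ v = g i)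

/-- total supply of the rounds `1, …, t` -/
def tot (a : ℕ → ℕ) (t : ℕ) : ℕ := ∑ s ∈ Finset.Icc 1 t, a s

theorem tot_succ (a : ℕ → ℕ) (t : ℕ) : tot a (t + 1) = tot a t + a (t + 1) := by
  unfold tot
  rw [Finset.sum_Icc_succ_top (by omega)]

/-- schedule for the supply sequence `a` -/
def sch (a : ℕ → ℕ) (g : ℕ → ℤ × ℤ) (t : ℕ) : Finset (ℤ × ℤ) :=
  (Finset.Ico (tot a (t - 1)) (tot a t)).image g

theorem mem_sch (a : ℕ → ℕ) (g : ℕ → ℤ × ℤ) (i : ℕ) :
    ∀ t, i < tot a t → ∃ s, 1 ≤ s ∧ s ≤ t ∧ g i ∈ sch a g s := by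
  intro t
  induction t with
  | zero => intro h; simp [tot] at h
  | succ t ih =>
    intro h
    by_cases h1 : i < tot a t
    · obtain ⟨s, hs1, hs2, hs3⟩ := ih h1
      exact ⟨s, hs1, by omega, hs3⟩
    · refine ⟨t + 1, by omega, le_refl _, ?_⟩
      unfold sch
      rw [Finset.mem_image]
      refine ⟨i, ?_, rfl⟩
      simp only [Nat.add_sub_cancel, Finset.mem_Ico]
      omega

theorem contained_of_cert (n T : ℕ) (hn : 1 ≤ n) (hC : Cert n T) (a : ℕ → ℕ)
    (ha : ∀ t, 1 ≤ t → t + (if n ≤ t ∧ t < T then 1 else 0) ≤ tot a t) : Contained a := by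
  obtain ⟨g, D, ρ, hfin, h0, hρ0, hg, step⟩ := hC
  have key : ∀ t, ∀ v ∈ Bseq (sch a g) t, v ∈ D ∧ ρ v ≤ t := by
    intro t
    induction t with
    | zero =>
      intro v hv
      have : v = ((0 : ℤ), (0 : ℤ)) := hv
      subst this
      exact ⟨h0, by simpa using hρ0⟩
    | succ t ih =>
      intro v hv
      rcases hv with hv | ⟨hvP, u, hu, huv⟩
      · obtain ⟨h1, h2⟩ := ih v hv
        refine ⟨h1, ?_⟩
        push_cast
        linarith
      · obtain ⟨h1, h2⟩ := ih u hu
        rcases step u h1 v huv with ⟨h3, h4⟩ | ⟨i, hi, rfl⟩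
        · refine ⟨h3, ?_⟩
          push_cast
          linarith
        · exfalso
          apply hvP
          have h5 : rnd n T i ≤ t + 1 := by
            have : (rnd n T i : ℤ) ≤ t + 1 := by linarith
            exact_mod_cast this
          have h6 : 1 ≤ rnd n T i := by
            unfold rnd
            split_ifs <;> omega
          have h7 : i < tot a (rnd n T i) := by
            have h8 := ha (rnd n T i) h6
            revert h8
            unfold rnd
            split_ifs <;> omega
          obtain ⟨s, hs1, hs2, hs3⟩ := mem_sch a g i _ h7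
          exact mem_Pseq (sch a g) s (g i) hs1 hs3 (t + 1) (by omega)
  refine ⟨sch a g, Bseq (sch a g), Pseq (sch a g), ?_, rfl, rfl, ?_, ?_⟩
  · intro t ht
    unfold sch
    refine le_trans Finset.card_image_le ?_
    rw [Nat.card_Ico]
    obtain ⟨s, rfl⟩ : ∃ s, t = s + 1 := ⟨t - 1, by omega⟩
    rw [tot_succ]
    simp
  · intro t
    refine ⟨?_, rfl, rfl⟩
    intro v hv hB
    unfold sch at hv
    rw [Finset.mem_image] at hv
    obtain ⟨i, -, rfl⟩ := hv
    exact hg i (key t _ hB).1
  · apply hfin.subset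
    intro v hv
    obtain ⟨t, ht⟩ := Set.mem_iUnion.1 hv
    exact (key t v ht).1

/-- the order of protection in the general certificate -/
def gg (m n : ℕ) (i : ℕ) : ℤ × ℤ :=
  if i < n then f m ((i : ℤ) + 1)
  else if i = n then ex m
  else if i < 14 * m + 11 then f m i
  else f m ((i : ℤ) + 1)

theorem cert_general (n : ℕ) (hn : 1 ≤ n) : Cert n (14 * (n / 2) + 11) := by
  obtain ⟨m, hm⟩ : ∃ m : ℕ, m = n / 2 := ⟨_, rfl⟩
  rw [← hm]
  have hm' : n = 2 * m ∨ n = 2 * m + 1 := by omega
  have hm0 : (0 : ℤ) ≤ (m : ℤ) := by positivity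
  refine ⟨gg m n, {v | D m v}, rho m, D_finite m, ?_, ?_, ?_, ?_⟩
  · show D m (0, 0)
    unfold D Yc Zc
    simp only
    omega
  · show rho m (0, 0) ≤ 0
    unfold rho Yc Zc ab
    simp only
    split_ifs <;> omega
  · intro i
    show ¬ D m (gg m n i)
    unfold gg
    split_ifs with h1 h2 h3
    · apply f_not_D m hm0 _ (by omega)
      omega
    · exact ex_not_D m hm0
    · apply f_not_D m hm0 _ (by omega)
      omega
    · apply f_not_D m hm0 _ (by omega)
      omega
  · intro u hu v huv
    by_cases hv : D m v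
    · left
      exact ⟨hv, rho_lip m hm0 u v hu hv huv⟩
    · right
      rcases cover m hm0 u v hu hv huv with ⟨rfl, h1⟩ | ⟨r, h1, h2, h3, h4⟩
      · refine ⟨n, ?_, ?_⟩
        · unfold rnd
          split_ifs <;> omega
        · unfold gg
          simp
      · obtain ⟨t, rfl⟩ : ∃ t : ℕ, r = t := ⟨r.toNat, by omega⟩
        rcases Nat.lt_or_ge n t with h5 | h5
        · rcases Nat.lt_or_ge t (14 * m + 11) with h6 | h6
          · refine ⟨t, ?_, ?_⟩
            · unfold rnd
              split_ifs <;> omega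
            · unfold gg
              rw [if_neg (by omega), if_neg (by omega), if_pos h6]
              exact h4
          · refine ⟨t - 1, ?_, ?_⟩
            · unfold rnd
              split_ifs <;> omega
            · unfold gg
              rw [if_neg (by omega), if_neg (by omega), if_neg (by omega)]
              rw [h4]
              congr 1
              omega
        · refine ⟨t - 1, ?_, ?_⟩
          · unfold rnd
            split_ifs <;> omega
          · unfold gg
            rw [if_pos (by omega)]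
            rw [h4]
            congr 1
            omega

end HexLoan
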