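import Pool.Agent.HexLoan.Cert

set_option autoImplicit false

/-! From a checked table to containment. -/

namespace HexLoan

/-- the list of protected vertices, continued by a far away dummy vertex -/
def tok (lst : List (ℤ × ℤ)) (i : ℕ) : ℤ × ℤ := lst.getD i (1000, 1000)

/-- the list entries sit where the table says so -/
def lstOk (tbl : List (List ℕ)) (lst : List (ℤ × ℤ)) (yo xo : ℕ) : Bool :=
  (List.range lst.length).all fun i =>
    decide (0 ≤ (tok lst i).2 + yo) && decide (0 ≤ (tok lst i).1 + xo) &&
    decide (get tbl ((tok lst i).2 + yo).toNat ((tok lst i).1 + xo).toNat = 1000 + i)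

theorem c1_lstOk : lstOk c1_tbl c1_lst 10 19 = true := by decide +kernel

theorem c2_lstOk : lstOk c2_tbl c2_lst 1 13 = true := by decide +kernel

/-- schedule read off a list -/
def csched (lst : List (ℤ × ℤ)) (n T t : ℕ) : Finset (ℤ × ℤ) :=
  if t = n then {tok lst (n - 1), tok lst n}
  else if t = T then ∅
  else if n < t ∧ t < T then {tok lst t}
  else {tok lst (t - 1)}

/-- region read off a table -/
def CD (tbl : List (List ℕ)) (yo xo H W : ℕ) : Set (ℤ × ℤ) :=
  {v | ∃ i < H, ∃ j < W, v = ((j : ℤ) - xo, (i : ℤ) - yo) ∧ 1 ≤ get tbl i j ∧ get tbl i j < 1000}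

/-- burning time read off a table -/
def crho (tbl : List (List ℕ)) (yo xo : ℕ) (v : ℤ × ℤ) : ℤ :=
  (get tbl (v.2 + yo).toNat (v.1 + xo).toNat : ℤ) - 1

theorem crho_at (tbl : List (List ℕ)) (yo xo i j : ℕ) :
    crho tbl yo xo ((j : ℤ) - xo, (i : ℤ) - yo) = (get tbl i j : ℤ) - 1 := by
  unfold crho
  simp

theorem CD_finite (tbl : List (List ℕ)) (yo xo H W : ℕ) : (CD tbl yo xo H W).Finite := by
  apply Set.Finite.subset (s := (fun p : ℕ × ℕ => (((p.2 : ℤ) - xo, (p.1 : ℤ) - yo) : ℤ × ℤ)) ''
    ((Finset.range H ×ˢ Finset.range W : Finset (ℕ × ℕ)) : Set (ℕ × ℕ)))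
  · exact (Finset.finite_toSet _).image _
  · rintro v ⟨i, hi, j, hj, rfl, -⟩
    refine ⟨(i, j), ?_, rfl⟩
    simp [hi, hj]

theorem mem_csched (lst : List (ℤ × ℤ)) (n T : ℕ) (hn : 1 ≤ n) (hnT : n < T) (i : ℕ) :
    1 ≤ rnd n T i ∧ tok lst i ∈ csched lst n T (rnd n T i) := by
  by_cases h1 : i < n
  · have hr : rnd n T i = i + 1 := by simp [rnd, h1]
    rw [hr]
    refine ⟨by omega, ?_⟩
    unfold csched
    by_cases h2 : i + 1 = n
    · have h3 : n - 1 = i := by omega
      simp [h2, h3]
    · have h3 : i + 1 ≠ T := by omega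
      have h4 : ¬ (n < i + 1 ∧ i + 1 < T) := by omega
      simp only [h2, h3, h4, if_false, Nat.add_sub_cancel, Finset.mem_singleton]
  · by_cases h2 : i < T
    · have hr : rnd n T i = i := by simp [rnd, h1, h2]
      rw [hr]
      refine ⟨by omega, ?_⟩
      unfold csched
      by_cases h3 : i = n
      · simp [h3]
      · have h4 : i ≠ T := by omega
        have h5 : n < i ∧ i < T := by omega
        simp only [h3, h4, h5, if_false, if_true, Finset.mem_singleton, and_self]
    · have hr : rnd n T i = i + 1 := by simp [rnd, h1, h2]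
      rw [hr]
      refine ⟨by omega, ?_⟩
      unfold csched
      have h3 : i + 1 ≠ n := by omega
      have h4 : i + 1 ≠ T := by omega
      have h5 : ¬ (n < i + 1 ∧ i + 1 < T) := by omega
      simp only [h3, h4, h5, if_false, Nat.add_sub_cancel, Finset.mem_singleton]

theorem exists_tok (lst : List (ℤ × ℤ)) (n T t : ℕ) (v : ℤ × ℤ) (hv : v ∈ csched lst n T t) :
    ∃ i, v = tok lst i := by
  unfold csched at hv
  split_ifs at hv with h1 h2 h3
  · simp only [Finset.mem_insert, Finset.mem_singleton] at hv
    rcases hv with h | h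
    · exact ⟨_, h⟩
    · exact ⟨_, h⟩
  · simp at hv
  · simp only [Finset.mem_singleton] at hv
    exact ⟨_, hv⟩
  · simp only [Finset.mem_singleton] at hv
    exact ⟨_, hv⟩

theorem tok_not_CD (tbl : List (List ℕ)) (lst : List (ℤ × ℤ)) (yo xo H W : ℕ) (hW : W ≤ 1000)
    (hl : lstOk tbl lst yo xo = true) (i : ℕ) : tok lst i ∉ CD tbl yo xo H W := by
  rintro ⟨a, ha, b, hb, h, h1, h2⟩
  by_cases hi : i < lst.length
  · unfold lstOk at hl
    rw [List.all_eq_true] at hl
    have h3 := hl i (List.mem_range.2 hi)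
    simp only [Bool.and_eq_true, decide_eq_true_eq] at h3
    obtain ⟨⟨h4, h5⟩, h6⟩ := h3
    rw [h] at h6
    simp only [sub_add_cancel, Int.toNat_natCast] at h6
    omega
  · have h3 : tok lst i = (1000, 1000) := by
      unfold tok
      rw [List.getD_eq_default]
      omega
    rw [h3, Prod.ext_iff] at h
    obtain ⟨h4, h5⟩ := h
    simp only at h4 h5
    omega

theorem contain_of_check (tbl : List (List ℕ)) (lst : List (ℤ × ℤ)) (n T yo xo H W : ℕ)
    (hn : 1 ≤ n) (hnT : n < T) (hyo : yo < H) (hxo : xo < W) (hW : W ≤ 1000)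
    (h0 : get tbl yo xo = 1) (hne : tok lst (n - 1) ≠ tok lst n)
    (hc : check tbl lst n T yo xo H W = true) (hl : lstOk tbl lst yo xo = true) :
    Contain n T := by
  apply contain_of n T (csched lst n T) (CD tbl yo xo H W) (crho tbl yo xo)
  · intro t ht
    unfold csched
    by_cases h1 : t = n
    · simp only [h1, if_true]
      exact Finset.card_pair hne
    · by_cases h2 : t = T
      · simp [h2, (Nat.ne_of_lt hnT).symm]
      · by_cases h3 : n < t ∧ t < T
        · simp [h1, h2, h3]
        · simp [h1, h2, h3]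
  · exact CD_finite tbl yo xo H W
  · exact ⟨yo, hyo, xo, hxo, by simp, by omega, by omega⟩
  · unfold crho
    simp [h0]
  · intro t ht v hv
    obtain ⟨i, rfl⟩ := exists_tok lst n T t v hv
    exact tok_not_CD tbl lst yo xo H W hW hl i
  · rintro u ⟨i, hi, j, hj, rfl, h1, h2⟩ v huv
    unfold check at hc
    rw [List.all_eq_true] at hc
    have hc1 := hc i (List.mem_range.2 hi)
    rw [List.all_eq_true] at hc1
    have hc2 := hc1 j (List.mem_range.2 hj)
    simp only [Bool.or_eq_true, Bool.and_eq_true, decide_eq_true_eq] at hc2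
    rcases hc2 with (h3 | ⟨⟨h3, -⟩, -⟩) | ⟨⟨⟨⟨⟨⟨⟨-, h3⟩, h4⟩, h5⟩, h6⟩, h7⟩, h8⟩, h9⟩
    · omega
    · omega
    · have key : ∀ i' j' : ℕ, i' < H → j' < W → okNb tbl n T (get tbl i j) i' j' = true →
          v = ((j' : ℤ) - xo, (i' : ℤ) - yo) →
          (v ∈ CD tbl yo xo H W ∧ crho tbl yo xo v ≤ crho tbl yo xo ((j : ℤ) - xo, (i : ℤ) - yo) + 1) ∨
          ∃ t : ℕ, 1 ≤ t ∧ (t : ℤ) ≤ crho tbl yo xo ((j : ℤ) - xo, (i : ℤ) - yo) + 1 ∧
            v ∈ csched lst n T t := by
        intro i' j' hi' hj' hok hv
        unfold okNb at hok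
        simp only [Bool.or_eq_true, Bool.and_eq_true, decide_eq_true_eq] at hok
        rcases hok with ⟨⟨h10, h11⟩, h12⟩ | ⟨h10, h11⟩
        · left
          refine ⟨⟨i', hi', j', hj', hv, h10, h11⟩, ?_⟩
          rw [hv, crho_at, crho_at]
          omega
        · right
          -- look up the token
          have hc3 := hc i' (List.mem_range.2 hi')
          rw [List.all_eq_true] at hc3
          have hc4 := hc3 j' (List.mem_range.2 hj')
          simp only [Bool.or_eq_true, Bool.and_eq_true, decide_eq_true_eq] at hc4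
          have hlk : lst.getD (get tbl i' j' - 1000) (0, 0) = ((j' : ℤ) - xo, (i' : ℤ) - yo) ∧
              get tbl i' j' - 1000 < lst.length := by
            rcases hc4 with (h12 | ⟨⟨-, h12⟩, h13⟩) | ⟨⟨⟨⟨⟨⟨⟨h12, -⟩, -⟩, -⟩, -⟩, -⟩, -⟩, -⟩
            · omega
            · exact ⟨h12, h13⟩
            · omega
          refine ⟨rnd n T (get tbl i' j' - 1000), (mem_csched lst n T hn hnT _).1, ?_, ?_⟩
          · rw [crho_at]
            omega
          · have := (mem_csched lst n T hn hnT (get tbl i' j' - 1000)).2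
            have h14 : tok lst (get tbl i' j' - 1000) = v := by
              obtain ⟨h15, h16⟩ := hlk
              rw [hv, ← h15]
              unfold tok
              rw [List.getD_eq_getElem _ _ h16, List.getD_eq_getElem _ _ h16]
            rw [← h14]
            exact this
      obtain ⟨x, y⟩ := v
      unfold Adj at huv
      simp only [Int.even_iff] at huv
      rcases huv with ⟨g1, g2 | g2⟩ | ⟨g1, ⟨g2, g3⟩ | ⟨g2, g3⟩⟩
      · apply key i (j - 1) hi (by omega) h8
        rw [Prod.ext_iff]
        simp only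
        push_cast [Nat.cast_sub h4]
        constructor <;> omega
      · apply key i (j + 1) hi (by omega) h7
        rw [Prod.ext_iff]
        simp only
        push_cast
        constructor <;> omega
      · have h10 : (i + yo + j + xo) % 2 = 0 := by omega
        rw [if_pos h10] at h9
        apply key (i + 1) j (by omega) hj h9
        rw [Prod.ext_iff]
        simp only
        push_cast
        constructor <;> omega
      · have h10 : ¬ (i + yo + j + xo) % 2 = 0 := by omega
        rw [if_neg h10] at h9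
        apply key (i - 1) j (by omega) hj h9
        rw [Prod.ext_iff]
        simp only
        push_cast [Nat.cast_sub h3]
        constructor <;> omega

theorem contain_one_three : Contain 1 3 :=
  contain_of_check c1_tbl c1_lst 1 3 10 19 20 24 (by norm_num) (by norm_num) (by norm_num)
    (by norm_num) (by norm_num) (by decide +kernel) (by decide +kernel) c1_check c1_lstOk

theorem contain_two_five : Contain 2 5 :=
  contain_of_check c2_tbl c2_lst 2 5 1 13 16 44 (by norm_num) (by norm_num) (by norm_num)
    (by norm_num) (by norm_num) (by decide +kernel) (by decide +kernel) c2_check c2_lstOk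

end HexLoan
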